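import Pool.Agent.W710.DP.Stm1

/-! Project DP (MP_e8131c_gt), piece DP-SUB: subadditivity. -/

set_option autoImplicit false

namespace Pool.Agent.W632.DP

open Pool.Agent.W710.DP Finsupp

section chains
variable {X Y : Type}

theorem bd_single (t : List X) (a : ZMod 2) : bd (Finsupp.single t a) = a • bdL t := by
  simp [bd, Finsupp.linearCombination_single]

theorem bdL_map (f : X → Y) : ∀ t : List X, bdL (t.map f) = mapc f (bdL t)
  | [] => by simp [bdL, mapc]
  | x :: t => by
    simp only [List.map_cons, bdL, mapc, bdL_map f t]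
    rw [Finsupp.mapDomain_add, Finsupp.mapDomain_single, ← Finsupp.mapDomain_comp,
      ← Finsupp.mapDomain_comp]
    rfl

theorem bd_mapc (f : X → Y) (z : List X →₀ ZMod 2) : bd (mapc f z) = mapc f (bd z) := by
  induction z using Finsupp.induction_linear with
  | zero => simp [mapc]
  | add a b ha hb =>
    simp only [mapc, Finsupp.mapDomain_add, map_add] at *
    rw [ha, hb]
  | single t a =>
    simp only [mapc] at *
    rw [Finsupp.mapDomain_single, bd_single, bd_single, bdL_map]
    simp [mapc, Finsupp.mapDomain_smul]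

theorem ev_map (f : X → Y) : ∀ (hs : List (Y → ZMod 2)) (t : List X),
    ev hs (t.map f) = ev (hs.map (fun h => fun x => h (f x))) t
  | [], t => by simp [ev]
  | h :: hs, [] => by simp [ev]
  | h :: hs, [x] => by simp [ev]
  | h :: hs, x :: y :: t => by
    have := ev_map f hs (y :: t)
    simp only [List.map_cons, ev] at *
    rw [this]

theorem pr_mapc (f : X → Y) (A : List Y → ZMod 2) (z : List X →₀ ZMod 2) :
    pr A (mapc f z) = pr (fun t => A (t.map f)) z := by
  simp only [pr, mapc]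
  rw [Finsupp.linearCombination_mapDomain]
  rfl

theorem pr_ev_mapc (f : X → Y) (hs : List (Y → ZMod 2)) (z : List X →₀ ZMod 2) :
    pr (ev hs) (mapc f z) = pr (ev (hs.map (fun h => fun x => h (f x)))) z := by
  rw [pr_mapc]
  congr 1
  congr 1
  funext t
  exact ev_map f hs t

theorem mapc_support (f : X → Y) (z : List X →₀ ZMod 2) (u : List Y)
    (hu : u ∈ (mapc f z).support) : ∃ t ∈ z.support, t.map f = u := by
  classical
  have := Finsupp.mapDomain_support hu
  simpa using this

theorem bdL_support : ∀ (t u : List X), u ∈ (bdL t).support → ∀ p ∈ u, p ∈ t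
  | [], u => by simp [bdL]
  | x :: t, u => by
    classical
    intro hu p hp
    simp only [bdL] at hu
    rcases Finset.mem_union.1 (Finsupp.support_add hu) with h | h
    · have := Finsupp.support_single_subset h
      rw [Finset.mem_singleton] at this
      subst this
      exact List.mem_cons_of_mem _ hp
    · have := Finsupp.mapDomain_support h
      rw [Finset.mem_image] at this
      obtain ⟨a, ha, rfl⟩ := this
      rcases List.mem_cons.1 hp with h' | h'
      · simp [h']
      · exact List.mem_cons_of_mem _ (bdL_support t a ha p h')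

theorem bd_support (z : List X →₀ ZMod 2) (u : List X) (hu : u ∈ (bd z).support) :
    ∃ t ∈ z.support, ∀ p ∈ u, p ∈ t := by
  classical
  rw [Finsupp.mem_support_iff, bd, Finsupp.linearCombination_apply, Finsupp.sum,
    Finsupp.finsetSum_apply] at hu
  obtain ⟨t, ht, h⟩ := Finset.exists_ne_zero_of_sum_ne_zero hu
  refine ⟨t, ht, bdL_support t u ?_⟩
  rw [Finsupp.mem_support_iff]
  intro h0
  apply h
  simp [h0]

/-- finite supports are bounded -/
theorem exists_bound (z : List X →₀ ZMod 2) (f : X → ℝ) :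
    ∃ B : ℝ, 0 ≤ B ∧ ∀ t ∈ z.support, ∀ p ∈ t, |f p| ≤ B := by
  classical
  have h1 : (⋃ t ∈ z.support, {p | p ∈ t}).Finite := by
    refine Set.Finite.biUnion (Finset.finite_toSet _) (fun t _ => List.finite_toSet t)
  obtain ⟨B, hB⟩ := (h1.image (fun p => |f p|)).bddAbove
  refine ⟨max B 0, le_max_right _ _, fun t ht p hp => le_max_of_le_left (hB ⟨p, ?_, rfl⟩)⟩
  simp only [Set.mem_iUnion]
  exact ⟨t, ht, hp⟩

end chains

theorem Sw_append (b : ℝ) (w : List Letter) : ∀ (v : List Letter) (ζ : Cfg),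
    Sw b (v ++ w) ζ = Sw b v ζ + Sw b w (shc v.length ζ)
  | [], ζ => by simp [Sw, shc]
  | l :: v, ζ => by
    simp only [List.cons_append, Sw, List.length_cons]
    rw [Sw_append b w v (shc 1 ζ)]
    have : shc v.length (shc 1 ζ) = shc (v.length + 1) ζ := rfl
    rw [this]
    ring

theorem Sw_congr (b : ℝ) : ∀ (w : List Letter) (ζ η : Cfg), (∀ i ≤ w.length, ζ.1 i = η.1 i) →
    (∀ i < w.length, ζ.2 i = η.2 i) → Sw b w ζ = Sw b w η
  | [], ζ, η => by simp [Sw]
  | l :: w, ζ, η => by
    intro h1 h2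
    simp only [Sw]
    rw [h1 0 (by simp), h1 1 (by simp), h2 0 (by simp),
      Sw_congr b w (shc 1 ζ) (shc 1 η) (fun i hi => h1 (i + 1) (by simpa using hi))
        (fun i hi => h2 (i + 1) (by simpa using hi))]

/-- the clamp -/
noncomputable def cl (T u : ℝ) : ℝ := max 0 (min T u)

theorem cl_nonneg (T u : ℝ) : 0 ≤ cl T u := le_max_left _ _

theorem cl_le (T u : ℝ) (hT : 0 ≤ T) : cl T u ≤ T := max_le hT (min_le_left _ _)

theorem cl_lip (T u v : ℝ) : |cl T u - cl T v| ≤ |u - v| := by
  unfold cl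
  refine (abs_max_sub_max_le_max _ _ _ _).trans ?_
  rw [sub_self, abs_zero]
  refine max_le (abs_nonneg _) ((abs_min_sub_min_le_max _ _ _ _).trans ?_)
  rw [sub_self, abs_zero]
  exact max_le (abs_nonneg _) le_rfl

theorem cl_mul (b T m y : ℝ) (hb : 0 < b) (hT : b < T) (hmb : m ≤ b)
    (hmT : m ≤ T - b) : (cl T (b - y) - b) * y ≤ 0 ∧
      (m ≤ |y| → (cl T (b - y) - b) * y ≤ -(m * |y|)) := by
  unfold cl
  rcases le_total 0 y with hy | hy
  · rw [abs_of_nonneg hy]
    have h1 : min T (b - y) = b - y := min_eq_right (by linarith)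
    rw [h1]
    rcases le_total 0 (b - y) with h | h
    · rw [max_eq_right h]
      constructor
      · nlinarith
      · intro h2
        nlinarith
    · rw [max_eq_left h]
      constructor
      · nlinarith
      · intro h2
        nlinarith
  · rw [abs_of_nonpos hy]
    rcases le_total T (b - y) with h | h
    · rw [min_eq_left h, max_eq_right (by linarith)]
      constructor
      · nlinarith
      · intro h2
        nlinarith
    · rw [min_eq_right h, max_eq_right (by linarith)]
      constructor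
      · nlinarith
      · intro h2
        nlinarith

/-- the gluing map -/
noncomputable def FF (p : ℕ) (b T : ℝ) (V : ℝ → ℕ → ℝ) (q : (Cfg × ℝ) × Cfg) : Cfg :=
  (fun i => if i ≤ p then q.1.1.1 i else q.2.1 (i - (p + 1)) + V q.1.2 (i - (p + 1)),
   fun i => if i < p then q.1.1.2 i else
    if i = p then cl T (b - (q.2.1 0 + V q.1.2 0 - q.1.1.1 p)) else q.2.2 (i - (p + 1)))

section FFl
variable (p : ℕ) (b T : ℝ) (V : ℝ → ℕ → ℝ) (q : (Cfg × ℝ) × Cfg)

theorem FF1_le {i : ℕ} (h : i ≤ p) : (FF p b T V q).1 i = q.1.1.1 i := by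
  simp [FF, h]

theorem FF1_gt (j : ℕ) : (FF p b T V q).1 (p + 1 + j) = q.2.1 j + V q.1.2 j := by
  simp only [FF]
  rw [if_neg (by omega)]
  have : p + 1 + j - (p + 1) = j := by omega
  rw [this]

theorem FF2_lt {i : ℕ} (h : i < p) : (FF p b T V q).2 i = q.1.1.2 i := by
  simp [FF, h]

theorem FF2_eq : (FF p b T V q).2 p = cl T (b - (q.2.1 0 + V q.1.2 0 - q.1.1.1 p)) := by
  simp [FF]

theorem FF2_gt (j : ℕ) : (FF p b T V q).2 (p + 1 + j) = q.2.2 j := by
  simp only [FF]
  rw [if_neg (by omega), if_neg (by omega)]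
  have : p + 1 + j - (p + 1) = j := by omega
  rw [this]

theorem Sw_FF (v w : List Letter) (hp : p = v.length) :
    Sw b (v ++ idL :: w) (FF p b T V q) = Sw b v q.1.1 +
      ((cl T (b - (q.2.1 0 + V q.1.2 0 - q.1.1.1 p)) - b) * (q.2.1 0 + V q.1.2 0 - q.1.1.1 p) +
      Sw b w (fun i => q.2.1 i + V q.1.2 i, q.2.2)) := by
  rw [Sw_append]
  congr 1
  · exact Sw_congr b v _ _ (fun i hi => FF1_le p b T V q (by omega))
      (fun i hi => FF2_lt p b T V q (by omega))
  · simp only [Sw, idL]
    have e1 : (shc v.length (FF p b T V q)).2 0 =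
        cl T (b - (q.2.1 0 + V q.1.2 0 - q.1.1.1 p)) := by
      simp only [shc, zero_add]
      rw [← hp]
      exact FF2_eq p b T V q
    have e2 : (shc v.length (FF p b T V q)).1 0 = q.1.1.1 p := by
      simp only [shc, zero_add]
      rw [← hp]
      exact FF1_le p b T V q le_rfl
    have e3 : (shc v.length (FF p b T V q)).1 1 = q.2.1 0 + V q.1.2 0 := by
      simp only [shc]
      rw [← hp, show 1 + p = p + 1 + 0 by omega]
      exact FF1_gt p b T V q 0
    rw [e1, e2, e3]
    have e4 : Sw b w (shc 1 (shc v.length (FF p b T V q))) =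
        Sw b w (fun i => q.2.1 i + V q.1.2 i, q.2.2) := by
      apply Sw_congr
      · intro i _
        simp only [shc]
        rw [← hp, show i + 1 + p = p + 1 + i by omega]
        exact FF1_gt p b T V q i
      · intro i _
        simp only [shc]
        rw [← hp, show i + 1 + p = p + 1 + i by omega]
        exact FF2_gt p b T V q i
    rw [e4]
    ring

end FFl

/-- the lists of functions on the product -/
noncomputable def be (p n : ℕ) (χ : ℝ → ZMod 2) : List ((Cfg × ℝ) × Cfg → ZMod 2) :=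
  ((hw p).map (fun f (q : Cfg × ℝ) => f q.1) ++ [χ].map (fun f (q : Cfg × ℝ) => f q.2)).map
    (fun f (q : (Cfg × ℝ) × Cfg) => f q.1) ++ (hw n).map (fun f (q : (Cfg × ℝ) × Cfg) => f q.2)

theorem hw_length (n : ℕ) : (hw n).length = n := by simp [hw]

theorem be_length (p n : ℕ) (χ : ℝ → ZMod 2) : (be p n χ).length = p + 1 + n := by
  simp [be, hw_length]
  omega

theorem be_lt (p n : ℕ) (χ : ℝ → ZMod 2) (i : ℕ) (hi : i < p) :
    (be p n χ).getD i 0 = fun q => hy i q.1.1 := by
  unfold be hw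
  rw [List.getD_eq_getElem?_getD, List.getElem?_append_left (by simp; omega), List.getElem?_map,
    List.getElem?_append_left (by simp; omega), List.getElem?_map, List.getElem?_map,
    List.getElem?_range hi]
  rfl

theorem be_eq (p n : ℕ) (χ : ℝ → ZMod 2) :
    (be p n χ).getD p 0 = fun q => χ q.1.2 := by
  unfold be hw
  rw [List.getD_eq_getElem?_getD, List.getElem?_append_left (by simp), List.getElem?_map,
    List.getElem?_append_right (by simp), List.getElem?_map]
  simp

theorem be_gt (p n : ℕ) (χ : ℝ → ZMod 2) (j : ℕ) (hj : j < n) :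
    (be p n χ).getD (p + 1 + j) 0 = fun q => hy j q.2 := by
  unfold be hw
  have e : p + 1 + j - (List.map (fun (f : Cfg × ℝ → ZMod 2) (q : (Cfg × ℝ) × Cfg) => f q.1)
      (List.map (fun (f : Cfg → ZMod 2) (q : Cfg × ℝ) => f q.1) (List.map hy (List.range p)) ++
        List.map (fun (f : ℝ → ZMod 2) (q : Cfg × ℝ) => f q.2) [χ])).length = j := by
    simp
  rw [List.getD_eq_getElem?_getD, List.getElem?_append_right (by simp), e, List.getElem?_map,
    List.getElem?_map, List.getElem?_range hj]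
  rfl

theorem al_get (N : ℕ) (f : (Cfg × ℝ) × Cfg → Cfg) (i : ℕ) (hi : i < N) :
    ((hw N).map (fun h => fun x => h (f x))).getD i (0 : (Cfg × ℝ) × Cfg → ZMod 2) =
      fun q => hy i (f q) := by
  unfold hw
  rw [List.getD_eq_getElem?_getD, List.getElem?_map, List.getElem?_map, List.getElem?_range hi]
  rfl

theorem hy_eq_one {i : ℕ} {ζ : Cfg} (h : 0 < ζ.1 (i + 1) - ζ.1 i) : hy i ζ = 1 := by
  simp only [hy]
  rw [if_pos h]

theorem hy_eq_zero {i : ℕ} {ζ : Cfg} (h : ζ.1 (i + 1) - ζ.1 i ≤ 0) : hy i ζ = 0 := by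
  simp only [hy]
  rw [if_neg (not_lt.2 h)]

theorem t_sub (h1 : S_prod) (h2 : S_path) (h3 : S_stair) (h4 : S_repl) (h5 : S_far) : S_sub := by
  intro b T e v w hpar gv gw a c hNv hNw M ε hε
  have hpar' := hpar
  obtain ⟨he, heb, heT⟩ := hpar
  have hb : 0 < b := by linarith
  have hT : b < T := by linarith
  obtain ⟨V, hV1, hV2, hV3, hV4⟩ := h3 w.length
  obtain ⟨Mv, hMv⟩ := h5 b T e v hpar' gv 3
  obtain ⟨Mw, hMw⟩ := h5 b T e w hpar' gw 3
  obtain ⟨K, hK⟩ : ∃ K : ℝ, K = |M| + |a| + |c| + b + 1 := ⟨_, rfl⟩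
  have hK0 : 0 < K := by rw [hK]; positivity
  obtain ⟨M', hM'⟩ : ∃ M' : ℝ, M' = max K (max Mv Mw) := ⟨_, rfl⟩
  have hM'1 : K ≤ M' := hM' ▸ le_max_left _ _
  have hM'2 : Mv ≤ M' := hM' ▸ (le_max_left _ _).trans (le_max_right _ _)
  have hM'3 : Mw ≤ M' := hM' ▸ (le_max_right _ _).trans (le_max_right _ _)
  obtain ⟨ε', hε'⟩ : ∃ ε' : ℝ, ε' = min (ε / 4) (1 / 8) := ⟨_, rfl⟩
  have hε'0 : 0 < ε' := by rw [hε']; positivity
  have hε'1 : ε' ≤ ε / 4 := hε' ▸ min_le_left _ _
  have hε'2 : ε' ≤ 1 / 8 := hε' ▸ min_le_right _ _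
  obtain ⟨zv, zv1, zv2, zv3⟩ := hNv M' ε' hε'0
  obtain ⟨zw, zw1, zw2, zw3⟩ := hNw M' ε' hε'0
  obtain ⟨Bv, hBv0, hBv⟩ := exists_bound zv (fun ζ => ζ.1 v.length)
  obtain ⟨Bw, hBw0, hBw⟩ := exists_bound zw (fun ζ => ζ.1 0)
  obtain ⟨m, hm⟩ : ∃ m : ℝ, m = min b (T - b) := ⟨_, rfl⟩
  have hm0 : 0 < m := by rw [hm]; exact lt_min hb (by linarith)
  have hm1 : m ≤ b := hm ▸ min_le_left _ _
  have hm2 : m ≤ T - b := hm ▸ min_le_right _ _
  obtain ⟨Y, hY⟩ : ∃ Y : ℝ, Y = K / m + m := ⟨_, rfl⟩
  have hY0 : 0 < Y := by rw [hY]; positivity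
  have hY1 : m ≤ Y := by
    rw [hY]
    have : 0 < K / m := by positivity
    linarith
  have hY2 : K ≤ m * Y := by
    rw [hY, mul_add, mul_div_cancel₀ _ hm0.ne']
    nlinarith
  obtain ⟨R, hR⟩ : ∃ R : ℝ, R = ((w.length : ℝ) + 1) * (Y + 1 + Bv + Bw) := ⟨_, rfl⟩
  have hR0 : 0 < R := by rw [hR]; positivity
  have hR1 : R / ((w.length : ℝ) + 1) = Y + 1 + Bv + Bw := by
    rw [hR, mul_div_cancel_left₀ _ (by positivity)]
  obtain ⟨cP, cP1, cP2, cP3⟩ := h2 R hR0 ε' hε'0
  obtain ⟨χ, hχ⟩ : ∃ χ : ℝ → ZMod 2, χ = fun r : ℝ => if 0 < r then 1 else 0 := ⟨_, rfl⟩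
  rw [← hχ] at cP3
  obtain ⟨Z1, hZ1⟩ : ∃ Z1, Z1 = ezc zv cP := ⟨_, rfl⟩
  obtain ⟨Z2, hZ2⟩ : ∃ Z2, Z2 = ezc Z1 zw := ⟨_, rfl⟩
  have A := h1 Cfg ℝ (hw v.length) [χ] zv cP (by simp) (fun s hs => (zv1 s hs).1)
    (fun t ht => by simpa using (cP1 t ht).1)
  rw [← hZ1] at A
  obtain ⟨A1, A2, A3⟩ := A
  have B := h1 (Cfg × ℝ) Cfg ((hw v.length).map (fun f (q : Cfg × ℝ) => f q.1) ++
    [χ].map (fun f (q : Cfg × ℝ) => f q.2)) (hw w.length) Z1 zw (by simp; omega)
    (fun s hs => by simpa using (A1 s hs).1) (fun s hs => (zw1 s hs).1)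
  rw [← hZ2] at B
  obtain ⟨B1, B2, B3⟩ := B
  -- the points of the product chain
  have P1 : ∀ u ∈ Z2.support, u.length = v.length + 1 + w.length + 1 ∧ (∀ q ∈ u, ∀ q' ∈ u,
      Close v.length ε' q.1.1 q'.1.1 ∧ |q.1.2 - q'.1.2| ≤ ε' ∧ Close w.length ε' q.2 q'.2) ∧
      (∀ q ∈ u, Om T v.length q.1.1 ∧ Sw b v q.1.1 ≤ a ∧ Om T w.length q.2 ∧ Sw b w q.2 ≤ c ∧
        |q.1.1.1 v.length| ≤ Bv ∧ |q.2.1 0| ≤ Bw) := by
    intro u hu
    obtain ⟨hl, s1, hs1, t1, ht1, hst⟩ := B1 u hu
    obtain ⟨_, s, hs, t0, ht0, hst'⟩ := A1 s1 hs1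
    refine ⟨by simpa [hw_length] using hl, fun q hq q' hq' => ?_, fun q hq => ?_⟩
    · have x1 := hst q hq
      have x2 := hst q' hq'
      have y1 := hst' _ x1.1
      have y2 := hst' _ x2.1
      exact ⟨(zv1 s hs).2.1 _ y1.1 _ y2.1, (cP1 t0 ht0).2.1 _ y1.2 _ y2.2,
        (zw1 t1 ht1).2.1 _ x1.2 _ x2.2⟩
    · have x1 := hst q hq
      have y1 := hst' _ x1.1
      have o1 := (zv1 s hs).2.2 _ y1.1
      have o2 := (zw1 t1 ht1).2.2 _ x1.2
      exact ⟨o1.1, o1.2, o2.1, o2.2, hBv s hs _ y1.1, hBw t1 ht1 _ x1.2⟩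
  have P2 : ∀ u ∈ (bd Z2).support, (∀ q ∈ u, Sw b v q.1.1 ≤ -M') ∨
      ((∀ q ∈ u, q.1.2 = R) ∨ (∀ q ∈ u, q.1.2 = -R)) ∨ (∀ q ∈ u, Sw b w q.2 ≤ -M') := by
    intro u hu
    rcases B2 u hu with ⟨s1, hs1, t1, ht1, hst⟩ | ⟨s1, hs1, t1, ht1, hst⟩
    · rcases A2 s1 hs1 with ⟨s, hs, t0, ht0, hst'⟩ | ⟨s, hs, t0, ht0, hst'⟩
      · exact Or.inl (fun q hq => zv2 s hs _ (hst' _ (hst q hq).1).1)
      · rcases cP2 t0 ht0 with rfl | rfl
        · exact Or.inr (Or.inl (Or.inl (fun q hq => by
            simpa using (hst' _ (hst q hq).1).2)))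
        · exact Or.inr (Or.inl (Or.inr (fun q hq => by
            simpa using (hst' _ (hst q hq).1).2)))
    · exact Or.inr (Or.inr (fun q hq => zw2 t1 ht1 _ (hst q hq).2))
  -- the value at a glued point
  have P3 : ∀ q : (Cfg × ℝ) × Cfg, Om T w.length q.2 →
      Sw b (v ++ idL :: w) (FF v.length b T V q) ≤ Sw b v q.1.1 +
      (cl T (b - (q.2.1 0 + V q.1.2 0 - q.1.1.1 v.length)) - b) *
        (q.2.1 0 + V q.1.2 0 - q.1.1.1 v.length) + (Sw b w q.2 + b + 1) := by
    intro q hq
    rw [Sw_FF v.length b T V q v w rfl]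
    have := hV4 b T e w hpar' gw rfl q.1.2 q.2 hq
    linarith
  have P4 : ∀ q : (Cfg × ℝ) × Cfg, (cl T (b - (q.2.1 0 + V q.1.2 0 - q.1.1.1 v.length)) - b) *
        (q.2.1 0 + V q.1.2 0 - q.1.1.1 v.length) ≤ 0 := fun q =>
    (cl_mul b T m _ hb hT hm1 hm2).1
  have P5 : ∀ q : (Cfg × ℝ) × Cfg, |q.1.1.1 v.length| ≤ Bv → |q.2.1 0| ≤ Bw → q.1.2 = R →
      Y ≤ q.2.1 0 + V q.1.2 0 - q.1.1.1 v.length := by
    intro q x1 x2 x3
    have x4 := hV3 q.1.2
    have x5 : q.1.2 / ((w.length : ℝ) + 1) = Y + 1 + Bv + Bw := by rw [x3, hR1]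
    rw [x5] at x4
    have := abs_le.1 x1
    have := abs_le.1 x2
    have := abs_le.1 x4
    linarith
  have P6 : ∀ q : (Cfg × ℝ) × Cfg, |q.1.1.1 v.length| ≤ Bv → |q.2.1 0| ≤ Bw → q.1.2 = -R →
      q.2.1 0 + V q.1.2 0 - q.1.1.1 v.length ≤ -Y := by
    intro q x1 x2 x3
    have x4 := hV3 q.1.2
    have x5 : q.1.2 / ((w.length : ℝ) + 1) = -(Y + 1 + Bv + Bw) := by rw [x3, neg_div, hR1]
    rw [x5] at x4
    have := abs_le.1 x1
    have := abs_le.1 x2
    have := abs_le.1 x4
    linarith
  have hlen : (v ++ idL :: w).length = v.length + 1 + w.length := by simp; omega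
  have hMabs := le_abs_self M
  have hMabs' := neg_abs_le M
  have haabs := le_abs_self a
  have haabs' := neg_abs_le a
  have hcabs := le_abs_self c
  have hcabs' := neg_abs_le c
  refine ⟨mapc (FF v.length b T V) Z2, ?_, ?_, ?_⟩
  · intro u hu
    obtain ⟨u', hu', rfl⟩ := mapc_support _ _ _ hu
    obtain ⟨p1, p2, p3⟩ := P1 u' hu'
    refine ⟨by rw [List.length_map, hw_length, hlen, p1], ?_, ?_⟩
    · intro x hx y hy'
      rw [List.mem_map] at hx hy'
      obtain ⟨q, hq, rfl⟩ := hx
      obtain ⟨q', hq', rfl⟩ := hy'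
      obtain ⟨c1, c2, c3⟩ := p2 q hq q' hq'
      rw [hlen]
      constructor
      · intro i hi
        rcases Nat.lt_or_ge v.length i with h | h
        · obtain ⟨j, rfl⟩ : ∃ j, i = v.length + 1 + j := ⟨i - (v.length + 1), by omega⟩
          rw [FF1_gt, FF1_gt]
          have d1 := c3.1 j (by omega)
          have d2 := (hV1 q.1.2 q'.1.2 j).trans c2
          have d1 := abs_le.1 d1
          have d2 := abs_le.1 d2
          rw [abs_le]
          constructor <;> linarith
        · rw [FF1_le _ _ _ _ _ h, FF1_le _ _ _ _ _ h]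
          have d1 := c1.1 i h
          linarith
      · intro i hi
        rcases lt_trichotomy i v.length with h | h | h
        · rw [FF2_lt _ _ _ _ _ h, FF2_lt _ _ _ _ _ h]
          have d1 := c1.2 i h
          linarith
        · subst h
          rw [FF2_eq, FF2_eq]
          refine (cl_lip _ _ _).trans ?_
          have d1 := abs_le.1 (c3.1 0 (by omega))
          have d2 := abs_le.1 ((hV1 q.1.2 q'.1.2 0).trans c2)
          have d3 := abs_le.1 (c1.1 v.length le_rfl)
          rw [abs_le]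
          constructor <;> linarith
        · obtain ⟨j, rfl⟩ : ∃ j, i = v.length + 1 + j := ⟨i - (v.length + 1), by omega⟩
          rw [FF2_gt, FF2_gt]
          have d1 := c3.2 j (by omega)
          linarith
    · intro x hx
      rw [List.mem_map] at hx
      obtain ⟨q, hq, rfl⟩ := hx
      obtain ⟨c1, c2, c3, c4, c5, c6⟩ := p3 q hq
      rw [hlen]
      constructor
      · intro i hi
        rcases lt_trichotomy i v.length with h | h | h
        · rw [FF2_lt _ _ _ _ _ h]
          exact c1 i h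
        · subst h
          rw [FF2_eq]
          exact ⟨cl_nonneg _ _, cl_le _ _ (by linarith)⟩
        · obtain ⟨j, rfl⟩ : ∃ j, i = v.length + 1 + j := ⟨i - (v.length + 1), by omega⟩
          rw [FF2_gt]
          exact c3 j (by omega)
      · have := P3 q c3
        have := P4 q
        linarith
  · intro u hu
    rw [bd_mapc] at hu
    obtain ⟨u', hu', rfl⟩ := mapc_support _ _ _ hu
    obtain ⟨u2, hu2, hsub⟩ := bd_support _ _ hu'
    obtain ⟨p1, p2, p3⟩ := P1 u2 hu2
    intro x hx
    rw [List.mem_map] at hx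
    obtain ⟨q, hq, rfl⟩ := hx
    obtain ⟨c1, c2, c3, c4, c5, c6⟩ := p3 q (hsub q hq)
    have d1 := P3 q c3
    have d2 := P4 q
    rcases P2 u' hu' with h | (h | h) | h
    · have := h q hq
      linarith
    · have y1 := P5 q c5 c6 (h q hq)
      have y2 := (cl_mul b T m (q.2.1 0 + V q.1.2 0 - q.1.1.1 v.length) hb hT hm1 hm2).2
        (by rw [abs_of_nonneg (by linarith)]; linarith)
      rw [abs_of_nonneg (by linarith)] at y2
      have y3 : m * Y ≤ m * (q.2.1 0 + V q.1.2 0 - q.1.1.1 v.length) :=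
        mul_le_mul_of_nonneg_left y1 hm0.le
      linarith
    · have y1 := P6 q c5 c6 (h q hq)
      have y2 := (cl_mul b T m (q.2.1 0 + V q.1.2 0 - q.1.1.1 v.length) hb hT hm1 hm2).2
        (by rw [abs_of_nonpos (by linarith)]; linarith)
      rw [abs_of_nonpos (by linarith)] at y2
      have y3 : m * Y ≤ m * -(q.2.1 0 + V q.1.2 0 - q.1.1.1 v.length) :=
        mul_le_mul_of_nonneg_left (by linarith) hm0.le
      linarith
    · have := h q hq
      linarith
  · rw [pr_ev_mapc, hlen]
    have key : pr (ev ((hw (v.length + 1 + w.length)).map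
        (fun h => fun x => h (FF v.length b T V x)))) Z2 =
        pr (ev (be v.length w.length χ)) Z2 := by
      apply h4
      · rw [be_length, List.length_map, hw_length]
      · intro t ht
        rw [List.length_map, hw_length, (P1 t ht).1]
      · intro u hu
        obtain ⟨u2, hu2, hsub⟩ := bd_support _ _ hu
        obtain ⟨p1, p2, p3⟩ := P1 u2 hu2
        rw [List.length_map, hw_length]
        rcases u.eq_nil_or_concat with rfl | ⟨L, q0, hL⟩
        · exact ⟨0, by omega, 0, by simp⟩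
        have hq0 : q0 ∈ u := by rw [hL]; simp
        obtain ⟨c1, c2, c3, c4, c5, c6⟩ := p3 q0 (hsub q0 hq0)
        rcases P2 u hu with h | h | h
        · obtain ⟨i, hi, hi2⟩ := hMv q0.1.1 c1 ((h q0 hq0).trans (by linarith))
          refine ⟨i, by omega, hy i q0.1.1, ?_⟩
          intro q hq
          rw [al_get _ _ _ (by omega), be_lt _ _ _ _ hi]
          have e1 : hy i (FF v.length b T V q) = hy i q.1.1 := by
            simp only [hy]
            rw [FF1_le _ _ _ _ _ (show i + 1 ≤ v.length by omega),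
              FF1_le _ _ _ _ _ (show i ≤ v.length by omega)]
          have e2 : hy i q.1.1 = hy i q0.1.1 := by
            have f1 := p2 q (hsub q hq) q0 (hsub q0 hq0)
            have f2 := abs_le.1 (f1.1.1 i (by omega))
            have f3 := abs_le.1 (f1.1.1 (i + 1) (by omega))
            rcases le_abs'.1 hi2 with g | g
            · rw [hy_eq_zero (by linarith), hy_eq_zero (by linarith)]
            · rw [hy_eq_one (by linarith), hy_eq_one (by linarith)]
          exact ⟨e1.trans e2, e2⟩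
        · refine ⟨v.length, by omega, χ q0.1.2, ?_⟩
          intro q hq
          rw [al_get _ _ _ (by omega), be_eq]
          obtain ⟨k1, k2, k3, k4, k5, k6⟩ := p3 q (hsub q hq)
          have f1 : (FF v.length b T V q).1 (v.length + 1) = q.2.1 0 + V q.1.2 0 :=
            FF1_gt v.length b T V q 0
          have f2 : (FF v.length b T V q).1 v.length = q.1.1.1 v.length :=
            FF1_le v.length b T V q le_rfl
          rcases h with h | h
          · have y1 := P5 q k5 k6 (h q hq)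
            have e1 : hy v.length (FF v.length b T V q) = 1 := by
              apply hy_eq_one
              rw [f1, f2]
              linarith
            have e2 : χ q.1.2 = 1 := by rw [h q hq, hχ]; simp [hR0]
            have e3 : χ q0.1.2 = 1 := by rw [h q0 hq0, hχ]; simp [hR0]
            rw [e3]
            exact ⟨e1, e2⟩
          · have y1 := P6 q k5 k6 (h q hq)
            have e1 : hy v.length (FF v.length b T V q) = 0 := by
              apply hy_eq_zero
              rw [f1, f2]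
              linarith
            have e2 : χ q.1.2 = 0 := by rw [h q hq, hχ]; simp [hR0.le]
            have e3 : χ q0.1.2 = 0 := by rw [h q0 hq0, hχ]; simp [hR0.le]
            rw [e3]
            exact ⟨e1, e2⟩
        · obtain ⟨j, hj, hj2⟩ := hMw q0.2 c3 ((h q0 hq0).trans (by linarith))
          refine ⟨v.length + 1 + j, by omega, hy j q0.2, ?_⟩
          intro q hq
          rw [al_get _ _ _ (by omega), be_gt _ _ _ _ hj]
          have f1 := p2 q (hsub q hq) q0 (hsub q0 hq0)
          have f2 := abs_le.1 (f1.2.2.1 j (by omega))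
          have f3 := abs_le.1 (f1.2.2.1 (j + 1) (by omega))
          have f4 := abs_le.1 (hV2 q.1.2 j hj)
          have f5 : (FF v.length b T V q).1 (v.length + 1 + j) = q.2.1 j + V q.1.2 j :=
            FF1_gt v.length b T V q j
          have f6 : (FF v.length b T V q).1 (v.length + 1 + j + 1) =
              q.2.1 (j + 1) + V q.1.2 (j + 1) :=
            FF1_gt v.length b T V q (j + 1)
          rcases le_abs'.1 hj2 with g | g
          · constructor
            · show hy _ _ = _
              rw [hy_eq_zero (by rw [f5, f6]; linarith), hy_eq_zero (by linarith)]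
            · show hy _ _ = _
              rw [hy_eq_zero (by linarith), hy_eq_zero (by linarith)]
          · constructor
            · show hy _ _ = _
              rw [hy_eq_one (by rw [f5, f6]; linarith), hy_eq_one (by linarith)]
            · show hy _ _ = _
              rw [hy_eq_one (by linarith), hy_eq_one (by linarith)]
    rw [key]
    have : pr (ev (be v.length w.length χ)) Z2 = _ := B3
    rw [this, A3, zv3, cP3, zw3]
    simp

end Pool.Agent.W632.DP
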